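import Mathlib
import Pool.Agent.Helper77.SP1.Final

/-!
# A containment of MP_6e067e_ag for all `t`, all `N ≥ 2` and all fields

Forms of degree `d` in `⋂ I(p)^{t (μ p + N - 1)}` lie in the `t`-th power of the ideal generated by
the forms of degree `< d / t` of `J = ⋂ I(p)^{μ p}`.
-/

set_option autoImplicit false

open MvPolynomial

namespace Pool.Agent.Results.MP_6e067e_ag.AllPowers

universe u

/-- The ideal `I(p)` of the point with coordinate vector `p`, as in the frozen statement. -/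
noncomputable def pt {K : Type u} [Field K] {N : ℕ} (p : Fin (N + 1) → K) :
    Ideal (MvPolynomial (Fin (N + 1)) K) :=
  Ideal.span (Set.range (fun ij : Fin (N + 1) × Fin (N + 1) =>
    (C (p ij.1) : MvPolynomial (Fin (N + 1)) K) * X ij.2 -
      (C (p ij.2) : MvPolynomial (Fin (N + 1)) K) * X ij.1))

/-- The irrelevant ideal `M = (x_0, …, x_N)`. -/
noncomputable def irr (K : Type u) [Field K] (N : ℕ) : Ideal (MvPolynomial (Fin (N + 1)) K) :=
  Ideal.span (Set.range (fun i : Fin (N + 1) => (X i : MvPolynomial (Fin (N + 1)) K)))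

/-- Let `N ≥ 2`, `t ≥ 1` and let `Z` be a nonempty finite set of nonzero vectors in `K ^ (N + 1)`, no
two of them proportional, with multiplicities `μ p ≥ 0`; put `J = ⋂ I(p)^{μ p}` and
`J' = ⋂ I(p)^{t (μ p + N - 1)}`.  Every form of degree `d` in `J'` lies in the `t`-th power of the
ideal generated by the forms of `J` of degree `k`, `t k < d`; hence `J' ⊆ M J ^ t`, and
`J'_d ⊆ M ^ t J ^ t` for all `d` divisible by `t`. -/
theorem result (K : Type u) [Field K] (N : ℕ) (hN : 2 ≤ N) (Z : Finset (Fin (N + 1) → K))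
    (hZ : Z.Nonempty) (h0 : ∀ p ∈ Z, p ≠ 0)
    (hp : ∀ p ∈ Z, ∀ q ∈ Z, ∀ c : K, q = c • p → q = p) (μ : (Fin (N + 1) → K) → ℕ) (t : ℕ)
    (ht : 0 < t) :
    (∀ (d : ℕ) (F : MvPolynomial (Fin (N + 1)) K), F.IsHomogeneous d →
      F ∈ (⨅ p ∈ Z, pt p ^ (t * (μ p + (N - 1)))) →
      F ∈ Ideal.span {G | G ∈ (⨅ p ∈ Z, pt p ^ μ p) ∧ ∃ k, t * k < d ∧ G.IsHomogeneous k} ^ t) ∧
    (⨅ p ∈ Z, pt p ^ (t * (μ p + (N - 1)))) ≤ irr K N * (⨅ p ∈ Z, pt p ^ μ p) ^ t ∧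
    (∀ (d : ℕ) (F : MvPolynomial (Fin (N + 1)) K), F.IsHomogeneous d → t ∣ d →
      F ∈ (⨅ p ∈ Z, pt p ^ (t * (μ p + (N - 1)))) →
      F ∈ irr K N ^ t * (⨅ p ∈ Z, pt p ^ μ p) ^ t) :=
  ⟨fun _ _ hF h => Pool.Agent.Helper77.SP1.all_small hN Z hZ h0 hp μ ht hF h,
    Pool.Agent.Helper77.SP1.all_ideal hN Z hZ h0 hp μ ht,
    fun _ _ hF hd h => Pool.Agent.Helper77.SP1.all_dvd hN Z hZ h0 hp μ ht hF hd h⟩

end Pool.Agent.Results.MP_6e067e_ag.AllPowers
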