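import Mathlib
import Pool.Agent.Helper50.Dem.Bridge

/-!
# Demailly's inequality for initial degrees of symbolic powers of point ideals, over every field

The initial degree inequality that Q1 of MP_6e067e_ag implies, for all finite sets of points in all
projective spaces of dimension at least one over all fields, and for fat points.
-/

set_option autoImplicit false

open MvPolynomial

namespace Pool.Agent.Results.MP_6e067e_ag.DemaillyInequality

open Pool.Agent.Helper50.Dem

universe u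

/-- Let `Z` be a nonempty finite set of nonzero vectors in `K^(N+1)`, `K` any field, `N ≥ 1`, and
`I` the radical ideal of the corresponding points of `ℙ^N`.  Then
`(α(I^{(m)}) + N - 1) / (m + N - 1) ≤ α(I^{(r)}) / r` for all `m, r ≥ 1`; more generally, for all
multiplicities `μ p, ρ p ≥ 0` and all real `l ≥ 0` with `μ p + N - 1 ≤ l ρ p` on `Z`,
`α(⋂ I(p)^{μ p}) + N - 1 ≤ l α(⋂ I(p)^{ρ p})`. -/
theorem result (K : Type u) [Field K] (N : ℕ) (hN : 1 ≤ N) (Z : Finset (Fin (N + 1) → K))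
    (hZ : Z.Nonempty) (h0 : ∀ p ∈ Z, p ≠ 0) :
    (∀ m r : ℕ, 0 < m → 0 < r →
      ((alpha (fat Z fun _ => m) : ℝ) + N - 1) / (m + N - 1) ≤
        (alpha (fat Z fun _ => r) : ℝ) / r) ∧
    (∀ (μ ρ : (Fin (N + 1) → K) → ℕ) (l : ℝ), 0 ≤ l →
      (∀ p ∈ Z, (μ p : ℝ) + N - 1 ≤ l * ρ p) →
      (alpha (fat Z μ) : ℝ) + N - 1 ≤ l * alpha (fat Z ρ)) := by
  have hNr : (1 : ℝ) ≤ N := by exact_mod_cast hN
  refine ⟨fun m r hm hr => ?_, fun μ ρ l hl h => alpha_ineq hN hZ h0 μ ρ l hl h⟩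
  have hmr : (1 : ℝ) ≤ m := by exact_mod_cast hm
  have hrr : (0 : ℝ) < r := by exact_mod_cast hr
  have hpos : (0 : ℝ) < (m : ℝ) + N - 1 := by linarith
  have h := alpha_ineq hN hZ h0 (fun _ => m) (fun _ => r) (((m : ℝ) + N - 1) / r)
    (by positivity) (fun p _ => by rw [div_mul_cancel₀ _ hrr.ne'])
  rw [div_le_div_iff₀ hpos hrr]
  have h2 : ((m : ℝ) + N - 1) / r * (alpha (fat Z fun _ => r) : ℝ) * r
      = (alpha (fat Z fun _ => r) : ℝ) * ((m : ℝ) + N - 1) := by
    field_simp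
  calc ((alpha (fat Z fun _ => m) : ℝ) + N - 1) * r
      ≤ ((m : ℝ) + N - 1) / r * (alpha (fat Z fun _ => r) : ℝ) * r := by gcongr
    _ = _ := h2

end Pool.Agent.Results.MP_6e067e_ag.DemaillyInequality
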