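import Mathlib
import Pool.Agent.Helper77.SP1.Final

/-!
# The containment of MP_6e067e_ag for `t = 1`

The containment of Q1 for `t = 1` and `N ≤ 3`, for all finite point sets, all `m` and all fields,
proved for fat points with arbitrary multiplicities; for `N ≥ 4` the factor is `M ^ 2`.
-/

set_option autoImplicit false

open MvPolynomial

namespace Pool.Agent.Results.MP_6e067e_ag.FirstPower

universe u

/-- Let `N ≥ 1` and let `Z` be a nonempty finite set of nonzero vectors in `K ^ (N + 1)`, no two of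
them proportional, with multiplicities `μ p ≥ 0`.  Then
`⋂ I(p)^{μ p + N - 1} ⊆ M ^ min(N - 1, 2) * ⋂ I(p)^{μ p}`.  For constant `μ p = m`, `N ≤ 3` this is
the containment of Q1 for `t = 1`. -/
theorem result (K : Type u) [Field K] (N : ℕ) (hN : 1 ≤ N) (Z : Finset (Fin (N + 1) → K))
    (hZ : Z.Nonempty) (h0 : ∀ p ∈ Z, p ≠ 0)
    (hp : ∀ p ∈ Z, ∀ q ∈ Z, ∀ c : K, q = c • p → q = p) (μ : (Fin (N + 1) → K) → ℕ) :
    (⨅ p ∈ Z, (Ideal.span (Set.range (fun ij : Fin (N + 1) × Fin (N + 1) =>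
        (C (p ij.1) : MvPolynomial (Fin (N + 1)) K) * X ij.2 -
          (C (p ij.2) : MvPolynomial (Fin (N + 1)) K) * X ij.1))) ^ (μ p + (N - 1)))
      ≤ (Ideal.span (Set.range (fun i : Fin (N + 1) =>
          (X i : MvPolynomial (Fin (N + 1)) K)))) ^ (min (N - 1) 2) *
        ⨅ p ∈ Z, (Ideal.span (Set.range (fun ij : Fin (N + 1) × Fin (N + 1) =>
          (C (p ij.1) : MvPolynomial (Fin (N + 1)) K) * X ij.2 -
            (C (p ij.2) : MvPolynomial (Fin (N + 1)) K) * X ij.1))) ^ μ p :=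
  Pool.Agent.Helper77.SP1.first hN Z hZ h0 hp μ

end Pool.Agent.Results.MP_6e067e_ag.FirstPower
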