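import Mathlib
import Pool.Agent.Helper50.N2.Plane

/-!
# The containment of MP_6e067e_ag for points of the projective plane

The containment of Q1 for `N = 2`, for all finite point sets and all `m, t ≥ 1`, over every field of
characteristic zero and every field of characteristic at least `2 t ^ 2 (m |Z| + 1)`; proved for fat
points with arbitrary multiplicities.
-/

set_option autoImplicit false

open MvPolynomial

namespace Pool.Agent.Results.MP_6e067e_ag.PlaneContainment

open Pool.Agent.Helper50.Dem Pool.Agent.Helper50.N2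

universe u

/-- Let `Z` be a nonempty finite set of nonzero vectors in `K ^ 3`, no two of them proportional, with
multiplicities `μ p ≥ 0`, and `t ≥ 1`.  If the characteristic of `K` is `0` or at least
`2 t ^ 2 (∑ μ p + 1)`, then `⋂ I(p)^{t (μ p + 1)} ⊆ M^t (⋂ I(p)^{μ p})^t`.  For constant `μ p = m` this
is the containment of Q1 for `N = 2`. -/
theorem result (K : Type u) [Field K] (Z : Finset (Fin 3 → K)) (hZ : Z.Nonempty)
    (h0 : ∀ p ∈ Z, p ≠ 0) (hp : ∀ p ∈ Z, ∀ q ∈ Z, ∀ c : K, q = c • p → q = p)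
    (μ : (Fin 3 → K) → ℕ) (t : ℕ) (ht : 0 < t)
    (hK : ringChar K = 0 ∨ 2 * t ^ 2 * (∑ p ∈ Z, μ p + 1) ≤ ringChar K) :
    (⨅ p ∈ Z, (Ideal.span (Set.range (fun ij : Fin 3 × Fin 3 =>
        (C (p ij.1) : MvPolynomial (Fin 3) K) * X ij.2 - (C (p ij.2) : MvPolynomial (Fin 3) K) *
          X ij.1))) ^ (t * (μ p + 1)))
      ≤ (Ideal.span (Set.range (fun i : Fin 3 => (X i : MvPolynomial (Fin 3) K)))) ^ t *
        (⨅ p ∈ Z, (Ideal.span (Set.range (fun ij : Fin 3 × Fin 3 =>
          (C (p ij.1) : MvPolynomial (Fin 3) K) * X ij.2 - (C (p ij.2) : MvPolynomial (Fin 3) K) *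
            X ij.1))) ^ μ p) ^ t :=
  plane Z hZ h0 hp μ t ht hK

end Pool.Agent.Results.MP_6e067e_ag.PlaneContainment
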